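import Mathlib
import Pool.Agent.Helper10.SmProj
import Pool.Agent.Helper11.Murre.Dim

/-!
# The dimension of a smooth variety is the transcendence degree of its function field
-/

universe u

open CategoryTheory AlgebraicGeometry Limits Cardinal

namespace Pool.Agent.Helper11.FP

open Pool.Agent.Helper10 Pool.Agent.Helper10.SmProjVar Pool.Agent.Helper47.Desc
open Pool.Agent.Helper11.Murre

/-- A domain which is étale over a domain is algebraic over it. -/
lemma g0_isAlgebraic_of_etale (P B : Type u) [CommRing P] [IsDomain P] [CommRing B] [IsDomain B]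
    [Algebra P B] [Algebra.Etale P B] : Algebra.IsAlgebraic P B := by
  have : Module.Flat P B := inferInstance
  have : FaithfulSMul P B := by
    rw [faithfulSMul_iff_algebraMap_injective]
    rw [injective_iff_map_eq_zero]
    intro a ha
    by_contra hne
    have h := Module.Flat.isSMulRegular_of_isRegular (M := B) (IsRegular.of_ne_zero hne)
    have : a • (1 : B) = a • (0 : B) := by rw [Algebra.smul_def, ha]; simp
    exact one_ne_zero (h this)
  let K := FractionRing P
  let L := FractionRing B
  let _ : Algebra K L := FractionRing.liftAlgebra P L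
  have : IsScalarTower P K L := FractionRing.isScalarTower_liftAlgebra P L
  have : Algebra.FormallyUnramified B L :=
    Algebra.FormallyUnramified.of_isLocalization (nonZeroDivisors B)
  have : Algebra.FormallyUnramified P L := Algebra.FormallyUnramified.comp P B L
  have : Algebra.FormallyUnramified K L := Algebra.FormallyUnramified.of_restrictScalars P K L
  have : Algebra.EssFiniteType B L := Algebra.EssFiniteType.of_isLocalization _ (nonZeroDivisors B)
  have : Algebra.EssFiniteType P L := Algebra.EssFiniteType.comp P B L
  have : Algebra.EssFiniteType K L := Algebra.EssFiniteType.of_comp P K L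
  have : Algebra.IsSeparable K L := Algebra.FormallyUnramified.isSeparable K L
  have : Algebra.IsAlgebraic K L := inferInstance
  have : Algebra.IsAlgebraic P L := IsFractionRing.comap_isAlgebraic_iff.mpr this
  exact Algebra.IsAlgebraic.of_injective (IsScalarTower.toAlgHom P B L)
    (IsFractionRing.injective B L)

variable {k : Type u} [Field k]

lemma g0_tr_standardSmooth {B : Type u} [CommRing B] [IsDomain B] (n : ℕ) (f : k →+* B)
    (hf : f.IsStandardSmoothOfRelativeDimension n) : tr f = n := by
  let _ := f.toAlgebra
  have : Algebra.IsStandardSmoothOfRelativeDimension n k B := hf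
  obtain ⟨g, hg⟩ := Algebra.IsStandardSmoothOfRelativeDimension.exists_etale_mvPolynomial n k B
  let _ := g.toRingHom.toAlgebra
  have : IsScalarTower k (MvPolynomial (Fin n) k) B := IsScalarTower.of_algebraMap_eq
    fun x => (g.commutes x).symm
  have : Algebra.Etale (MvPolynomial (Fin n) k) B := hg
  have := g0_isAlgebraic_of_etale (MvPolynomial (Fin n) k) B
  have h := trdeg_add_eq k (MvPolynomial (Fin n) k) (A := B)
  rw [trdeg_eq_zero (R := MvPolynomial (Fin n) k), add_zero,
    MvPolynomial.trdeg_of_isDomain] at h
  change Algebra.trdeg k B = n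
  rw [← h]
  simp

lemma g0_tr_localization {A B : Type u} [CommRing A] [IsDomain A] [CommRing B] [IsDomain B]
    [Algebra A B] (M : Submonoid A) [IsLocalization M B] (hM : M ≤ nonZeroDivisors A)
    (f : k →+* A) : tr ((algebraMap A B).comp f) = tr f := by
  let _ := f.toAlgebra
  let _ := ((algebraMap A B).comp f).toAlgebra
  have : IsScalarTower k A B := IsScalarTower.of_algebraMap_eq fun _ => rfl
  have : FaithfulSMul A B := by
    rw [faithfulSMul_iff_algebraMap_injective]
    exact IsLocalization.injective B hM
  have h := trdeg_add_eq k A (A := B)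
  have h2 : Algebra.trdeg A B = 0 := by
    have : Algebra.IsAlgebraic A B := IsLocalization.isAlgebraic (R := A) B M
    exact trdeg_eq_zero
  rw [h2, add_zero] at h
  exact h.symm

/-- The dimension of the generic point of `X` is the dimension of `X`. -/
theorem pointDim_genericPt_free (X : SmProjVar k) : X.pointDim X.genericPt = X.dim := by
  suffices h : trd X (genericPoint X.toOver.left) = X.dim by
    change toNat (trd X (genericPoint X.toOver.left)) = X.dim
    rw [h, toNat_natCast]
  rw [trd_generic]
  obtain ⟨_, ⟨U, hU, rfl⟩, hxU, -⟩ := X.toOver.left.isBasis_affineOpens.exists_subset_of_mem_open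
    (Set.mem_univ (genericPoint X.toOver.left)) isOpen_univ
  have : Nonempty U := ⟨⟨_, hxU⟩⟩
  let φ : CommRingCat.of k ⟶ Γ(X.toOver.left, U) := Spec.preimage (hU.fromSpec ≫ X.toOver.hom)
  have hφ : RingHom.Locally (RingHom.IsStandardSmoothOfRelativeDimension X.dim) φ.hom := by
    have h1 : SmoothOfRelativeDimension X.dim (Spec.map φ) := by
      rw [Spec.map_preimage]
      have : SmoothOfRelativeDimension (0 + X.dim) (hU.fromSpec ≫ X.toOver.hom) := inferInstance
      rwa [zero_add] at this
    exact (HasRingHomProperty.Spec_iff (P := @SmoothOfRelativeDimension X.dim)).1 h1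
  have h2 : φ ≫ X.toOver.left.presheaf.germ U _ hxU =
      stalkHom X (genericPoint X.toOver.left) := by
    apply Spec.map_injective
    rw [Spec.map_comp, stalkHom, Spec.map_preimage, Spec.map_preimage,
      ← hU.fromSpecStalk_eq_fromSpecStalk hxU, IsAffineOpen.fromSpecStalk, Category.assoc]
  have := functionField_isFractionRing_of_isAffineOpen X.toOver.left U hU
  have h3 := tr_frac (A := Γ(X.toOver.left, U)) (B := X.toOver.left.functionField) φ.hom
  have h4 : (algebraMap Γ(X.toOver.left, U) X.toOver.left.functionField).comp φ.hom =
      (stalkHom X (genericPoint X.toOver.left)).hom := congrArg CommRingCat.Hom.hom h2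
  rw [← h4]
  refine h3.trans ?_
  obtain ⟨s, hs, hs'⟩ := hφ
  obtain ⟨t, ht, ht0⟩ : ∃ t ∈ s, t ≠ 0 := by
    by_contra hne
    push Not at hne
    have : Ideal.span s ≤ ⊥ := Ideal.span_le.2 fun t ht => by
      rw [hne t ht]; exact Ideal.zero_mem _
    rw [hs] at this
    exact bot_ne_top (le_antisymm bot_le this)
  have hle : Submonoid.powers t ≤ nonZeroDivisors Γ(X.toOver.left, U) :=
    powers_le_nonZeroDivisors_of_noZeroDivisors ht0
  have : IsDomain (Localization.Away t) := IsLocalization.isDomain_localization hle
  have h5 := g0_tr_standardSmooth X.dim _ (hs' t ht)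
  rw [← h5]
  exact (g0_tr_localization (Submonoid.powers t) hle φ.hom).symm

end Pool.Agent.Helper11.FP
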