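import Mathlib
import Pool.Agent.Helper11.FP.Defs
import Pool.Agent.Helper11.FP.St.G0
import Pool.Agent.Helper11.Murre.Dim

/-!
# FP-G1: dimensions of points of the generic fibre

`m.incl.toHom` is a base change of the monomorphism `σ`, so it is a monomorphism, and monomorphisms
induce isomorphisms of residue fields.
-/

universe u v w

open CategoryTheory AlgebraicGeometry Limits TensorProduct Cardinal

namespace Pool.Agent.Helper11.FP

open Pool.Agent.Helper10 Pool.Agent.Helper10.SmProjVar Pool.Agent.Helper47.Desc
open Pool.Agent.Helper11.Murre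

/-- An epimorphism of fields is surjective. -/
lemma g1_surjective_of_isEpi (K L : Type u) [Field K] [Field L] [Algebra K L]
    [Algebra.IsEpi K L] : Function.Surjective (algebraMap K L) := by
  intro a
  by_contra hne
  have h := (Algebra.isEpi_iff_forall_one_tmul_eq K L).1 inferInstance a
  obtain ⟨φ, hφa, hφ1⟩ : ∃ φ : L →ₗ[K] K, φ a = 1 ∧ φ 1 = 0 := by
    have ha : a ∉ K ∙ (1 : L) := by
      rw [Submodule.mem_span_singleton]
      rintro ⟨c, hc⟩
      exact hne ⟨c, by rw [← hc, Algebra.smul_def, mul_one]⟩
    obtain ⟨φ, h1, h2⟩ := Submodule.exists_dual_map_eq_bot_of_notMem ha inferInstance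
    refine ⟨(φ a)⁻¹ • φ, by simp [h1], ?_⟩
    have h3 : φ 1 = 0 := by
      have h4 : φ 1 ∈ Submodule.map φ (K ∙ (1 : L)) :=
        Submodule.mem_map_of_mem (Submodule.mem_span_singleton_self 1)
      rw [h2] at h4
      simpa using h4
    simp [h3]
  have h5 := congrArg (TensorProduct.lift ((LinearMap.lsmul K L).comp φ)) h
  simp [hφa, hφ1] at h5

/-- Residue fields of a monomorphism. -/
lemma g1_residueFieldMap_surjective {Z Z' : Scheme.{u}} (f : Z ⟶ Z') [Mono f] (x : Z) :
    Function.Surjective (f.residueFieldMap x).hom := by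
  have h1 : Mono (Spec.map (f.residueFieldMap x)) := by
    have h2 : Mono (Spec.map (f.residueFieldMap x) ≫ Z'.fromSpecResidueField (f x)) := by
      rw [Scheme.Hom.SpecMap_residueFieldMap_fromSpecResidueField]
      infer_instance
    exact mono_of_mono _ (Z'.fromSpecResidueField (f x))
  have h3 : Epi (f.residueFieldMap x) := by
    refine ⟨fun {R} a b h => ?_⟩
    apply Spec.map_injective
    rw [← cancel_mono (Spec.map (f.residueFieldMap x)), ← Spec.map_comp, ← Spec.map_comp, h]
  let _ : Algebra (Z'.residueField (f x)) (Z.residueField x) := (f.residueFieldMap x).hom.toAlgebra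
  have h4 : Algebra.IsEpi (Z'.residueField (f x)) (Z.residueField x) :=
    CommRingCat.epi_iff_epi.mp <| inferInstanceAs (Epi (f.residueFieldMap x))
  exact g1_surjective_of_isEpi _ _

/-- `tr` and isomorphisms. -/
lemma g1_tr_bij {k A B : Type u} [Field k] [CommRing A] [IsDomain A] [CommRing B] [IsDomain B]
    (f : k →+* A) (g : A →+* B) (hg : Function.Bijective g) : tr (g.comp f) = tr f :=
  le_antisymm (tr_le_of_surjective f g hg.2) (tr_le_of_injective f g hg.1)

lemma g1_tr_add {F k A : Type u} [Field F] [Field k] [Field A] (i : F →+* k) (f : k →+* A) :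
    tr (f.comp i) = tr i + tr f := by
  let _ := i.toAlgebra
  let _ := f.toAlgebra
  let _ := (f.comp i).toAlgebra
  have : IsScalarTower F k A := IsScalarTower.of_algebraMap_eq fun _ => rfl
  exact (trdeg_add_eq F k (A := A)).symm

variable {F k : Type u} [Field F] [Field k] [Algebra F k] {S : SmProjVar F}
  {σ : Spec (CommRingCat.of k) ⟶ S.toOver.left} {X : SmProjVar k}

/-- The transcendence degree of `k` over `F`. -/
lemma g1_tr_algebraMap (hσ : IsGenericPoint σ) : tr (algebraMap F k) = trd S S.genericPt := by
  let z : Spec (CommRingCat.of k) := IsLocalRing.closedPoint k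
  have hz : σ z = S.genericPt := hσ.generic z
  rw [← hz, trd_eq_tr]
  have := hσ.mono
  let P : Scheme.{u} := Spec (CommRingCat.of k)
  -- the residue field of `Spec k`
  let ρ : CommRingCat.of k ⟶ P.residueField z := Spec.preimage (P.fromSpecResidueField z)
  have hρ : Function.Bijective ρ.hom := by
    refine ⟨RingHom.injective _, ?_⟩
    have h1 : Mono (Spec.map ρ) := by
      rw [Spec.map_preimage]
      infer_instance
    have h3 : Epi ρ := by
      refine ⟨fun {R} a b h => ?_⟩
      apply Spec.map_injective
      rw [← cancel_mono (Spec.map ρ), ← Spec.map_comp, ← Spec.map_comp, h]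
    let _ : Algebra k (P.residueField z) := ρ.hom.toAlgebra
    have h4 : Algebra.IsEpi k (P.residueField z) :=
      CommRingCat.epi_iff_epi.mp <| inferInstanceAs (Epi ρ)
    exact g1_surjective_of_isEpi _ _
  have h5 : resHom S (σ z) ≫ σ.residueFieldMap z =
      CommRingCat.ofHom (algebraMap F k) ≫ ρ := by
    apply Spec.map_injective
    rw [Spec.map_comp, Spec.map_comp, resHom, Spec.map_preimage, Spec.map_preimage,
      Scheme.Hom.SpecMap_residueFieldMap_fromSpecResidueField_assoc, hσ.w]
    rfl
  have h6 := congrArg CommRingCat.Hom.hom h5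
  have h7 : Function.Bijective (σ.residueFieldMap z).hom :=
    ⟨RingHom.injective _, g1_residueFieldMap_surjective σ z⟩
  rw [← g1_tr_bij (resHom S (σ z)).hom _ h7, ← g1_tr_bij (algebraMap F k) _ hρ]
  exact congrArg tr h6.symm

/-- **FP-G1.** -/
theorem pointDim_incl (hσ : IsGenericPoint σ) (m : Model σ X) (x : X.toOver.left) :
    m.Y.pointDim (m.incl.toHom x) = X.pointDim x + S.dim := by
  have hm : Mono m.incl.toHom := by
    have := hσ.mono
    refine ⟨fun {T} a b h => m.isPullback.hom_ext h ?_⟩
    rw [← cancel_mono σ, Category.assoc, Category.assoc, ← m.isPullback.w, ← Category.assoc, h,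
      Category.assoc]
  have h1 : resHom m.Y (m.incl.toHom x) ≫ m.incl.toHom.residueFieldMap x =
      CommRingCat.ofHom (algebraMap F k) ≫ resHom X x := by
    apply Spec.map_injective
    rw [Spec.map_comp, Spec.map_comp, resHom, resHom, Spec.map_preimage, Spec.map_preimage,
      Scheme.Hom.SpecMap_residueFieldMap_fromSpecResidueField_assoc, m.incl.w, Category.assoc]
    rfl
  have h2 : Function.Bijective (m.incl.toHom.residueFieldMap x).hom :=
    ⟨RingHom.injective _, g1_residueFieldMap_surjective _ x⟩
  have h3 : trd m.Y (m.incl.toHom x) = trd S S.genericPt + trd X x := by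
    rw [trd_eq_tr, ← g1_tr_bij _ _ h2, ← g1_tr_algebraMap hσ, trd_eq_tr]
    refine (congrArg tr (congrArg CommRingCat.Hom.hom h1)).trans ?_
    exact g1_tr_add (algebraMap F k) (resHom X x).hom
  have h4 : trd X x < ℵ₀ := lt_of_le_of_lt (trd_le X x) (by rw [trd_generic]; exact tr_lt X)
  have h5 : trd S S.genericPt < ℵ₀ := by
    change trd S (genericPoint S.toOver.left) < ℵ₀
    rw [trd_generic]; exact tr_lt S
  have h6 : toNat (trd S S.genericPt) = S.dim := pointDim_genericPt_free S
  change toNat (trd m.Y (m.incl.toHom x)) = toNat (trd X x) + S.dim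
  rw [h3, Cardinal.toNat_add h5 h4, h6, add_comm]

end Pool.Agent.Helper11.FP
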