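import Mathlib
import Pool.Agent.Helper11.FP.St.G0
import Pool.Agent.Helper11.FP.St.G1
import Pool.Agent.Helper11.FrobWeil

/-!
# FP-G2: the dimension of a model; restriction of cycles to the generic fibre; closures of cycles

Hints.  `incl_genericPt`: the image of `m.incl.toHom` is the inverse image under `m.f` of the generic
point of `S` (a cartesian square), and the generic point `η` of `Y` is in it: `m.f.left η` is the
generic point of `S`, because `m.f.left` has a point of `S.genericPt` in its image (`X` is not
empty) and `η` specializes to every point.  So `η = π x`, `X.genericPt ⤳ x`, hence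
`π X.genericPt ⤳ η`, so `π X.genericPt = η`.  `dim_model`: `pointDim_incl` at `X.genericPt`, and
`pointDim_genericPt`.  `exists_restrict`, `exists_closure`: cycles are functions with locally finite
support (`Function.locallyFinsupp`, finite support as the schemes are Noetherian); `π` is injective
(a monomorphism, `hσ.mono`, base changed; or: `pointDim` and fibres are points); examples for the
construction of elements of `Z` are in `Helper10/Descent.lean` and `Helper11/FrobWeil.lean`.  The
condition on the codimensions is `pointDim_incl` with `dim_model`.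
-/

universe u v w

open CategoryTheory AlgebraicGeometry Limits

namespace Pool.Agent.Helper11.FP

open Pool.Agent.Helper10 Pool.Agent.Helper10.SmProjVar

variable {F k : Type u} [Field F] [Field k] [Algebra F k] {S : SmProjVar F}
  {σ : Spec (CommRingCat.of k) ⟶ S.toOver.left} {X : SmProjVar k}

/-- The inclusion of the generic fibre is injective on points. -/
lemma g2_incl_injective (hσ : IsGenericPoint σ) (m : Model σ X) :
    Function.Injective m.incl.toHom := by
  have : Mono σ := hσ.mono
  have : Mono m.incl.toHom := (MorphismProperty.monomorphisms Scheme).of_isPullback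
    m.isPullback.flip (MorphismProperty.monomorphisms.infer_property σ)
  exact m.incl.toHom.injective

/-- **FP-G2a.** -/
theorem incl_genericPt (hσ : IsGenericPoint σ) (m : Model σ X) :
    m.incl.toHom X.genericPt = m.Y.genericPt := by
  have h1 : ∀ x, m.f.left (m.incl.toHom x) = genericPoint S.toOver.left := fun x => by
    rw [← Scheme.Hom.comp_apply, m.isPullback.w, Scheme.Hom.comp_apply]
    exact hσ.generic _
  have hY : ∀ y : m.Y.toOver.left, genericPoint m.Y.toOver.left ⤳ y := fun y =>
    genericPoint_specializes y
  have h2 : m.f.left (genericPoint m.Y.toOver.left) = genericPoint S.toOver.left := by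
    have h3 : m.f.left (genericPoint m.Y.toOver.left) ⤳ genericPoint S.toOver.left := by
      rw [← h1 (genericPoint X.toOver.left)]
      exact (hY _).map m.f.left.continuous
    exact (h3.antisymm (genericPoint_specializes _)).eq
  obtain ⟨z, hz, -⟩ := Scheme.exists_preimage_of_isPullback m.isPullback
    (genericPoint m.Y.toOver.left)
    (IsLocalRing.closedPoint k) (h2.trans (hσ.generic _).symm)
  have h4 : m.incl.toHom (genericPoint X.toOver.left) ⤳ genericPoint m.Y.toOver.left := by
    rw [← hz]
    exact Specializes.map (genericPoint_specializes z) m.incl.toHom.continuous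
  exact (h4.antisymm (hY _)).eq

/-- **FP-G2b.** -/
theorem dim_model (hσ : IsGenericPoint σ) (m : Model σ X) : m.Y.dim = X.dim + S.dim := by
  have h := pointDim_incl hσ m X.genericPt
  rw [incl_genericPt hσ m, pointDim_genericPt_free, pointDim_genericPt_free] at h
  exact h

/-- A cycle with given coefficients. -/
lemma g2_exists_cycle {k : Type u} [Field k] (X : SmProjVar k) (j : ℕ) (g : X.Pt → ℤ)
    (hfin : {x | g x ≠ 0}.Finite) (hg : ∀ x, g x ≠ 0 → X.pointDim x + j = X.dim) :
    ∃ c : X.Z j, ∀ x, c.toCyc.coeff x = g x := by
  let c : Function.locallyFinsupp X.toOver.left ℤ :=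
    { toFun := g
      supportWithinDomain' := fun _ _ => trivial
      supportLocallyFiniteWithinDomain' := fun z _ => ⟨Set.univ, Filter.univ_mem,
        hfin.subset fun x hx => hx.2⟩ }
  exact ⟨⟨c, fun x hx => hg x hx⟩, fun x => rfl⟩

/-- **FP-G2c.** -/
theorem exists_restrict (hσ : IsGenericPoint σ) (m : Model σ X) {j : ℕ} (c : m.Y.Z j) :
    ∃ c' : X.Z j, ∀ x, c'.toCyc.coeff x = c.toCyc.coeff (m.incl.toHom x) := by
  refine g2_exists_cycle X j (fun x => c.toCyc.coeff (m.incl.toHom x)) ?_ ?_
  · exact (finite_support_cycle m.Y c.toCyc).preimage (g2_incl_injective hσ m).injOn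
  · intro x hx
    have h1 := c.2 (m.incl.toHom x) hx
    rw [pointDim_incl hσ m x, dim_model hσ m] at h1
    omega

/-- **FP-G2d.** -/
theorem exists_closure (hσ : IsGenericPoint σ) (m : Model σ X) {j : ℕ} (c' : X.Z j) :
    ∃ c : m.Y.Z j, ∀ x, c'.toCyc.coeff x = c.toCyc.coeff (m.incl.toHom x) := by
  have hi := g2_incl_injective hσ m
  have hext : ∀ x : X.Pt, Function.extend (m.incl.toHom : X.Pt → m.Y.Pt) c'.toCyc.coeff 0
      (m.incl.toHom x) = c'.toCyc.coeff x := fun x => Function.Injective.extend_apply hi _ _ x
  have h1 : {y | Function.extend (m.incl.toHom : X.Pt → m.Y.Pt) c'.toCyc.coeff 0 y ≠ 0}.Finite := by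
    refine ((finite_support_cycle X c'.toCyc).image (m.incl.toHom : X.Pt → m.Y.Pt)).subset ?_
    intro y hy
    by_cases h : ∃ x, (m.incl.toHom : X.Pt → m.Y.Pt) x = y
    · obtain ⟨x, rfl⟩ := h
      exact ⟨x, fun h0 => hy ((hext x).trans h0), rfl⟩
    · exact absurd (Function.extend_apply' _ _ _ h) hy
  have h2 : ∀ y, Function.extend (m.incl.toHom : X.Pt → m.Y.Pt) c'.toCyc.coeff 0 y ≠ 0 →
      m.Y.pointDim y + j = m.Y.dim := by
    intro y hy
    by_cases h : ∃ x, (m.incl.toHom : X.Pt → m.Y.Pt) x = y
    · obtain ⟨x, rfl⟩ := h
      have h1 := c'.2 x fun h0 => hy ((hext x).trans h0)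
      have h2 := pointDim_incl hσ m x
      have h3 := dim_model hσ m
      change m.Y.pointDim (m.incl.toHom x) + j = m.Y.dim
      omega
    · exact absurd (Function.extend_apply' _ _ _ h) hy
  obtain ⟨c, hc⟩ := g2_exists_cycle m.Y j _ h1 h2
  exact ⟨c, fun x => ((hc _).trans (hext x)).symm⟩

end Pool.Agent.Helper11.FP
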