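import Mathlib
import Pool.Agent.Helper11.FP.Basic
import Pool.Agent.Helper11.FP.St.G2
import Pool.Agent.Helper10.Descent
import Pool.Agent.Helper47.Chow.Corr
import Pool.Agent.Helper47.Desc.PointDim

/-!
# FP-C3: from a model to the generic fibre

Hints.  Let `c' = a - b` (`exists_cycle_neg`, `exists_cycle_add` in `Helper10/Descent.lean`), `c` its
closure in `Y` (`exists_closure`), so `res (cy c) = cy c'` (`hE.cy`).  Let `s` be the class of a
closed point of `S` (`tr_point`; `tr s ≠ 0` in `K`, e.g. from `Helper47/Chow/Ext.lean`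
`tr_cl_ptCls`, or take any `s` in `gr (2 dim S)` with trace `1` - but it has to be a class of a
cycle), `f^* s` is the class of a cycle of codimension `dim S` on `Y` (`cy_pull`), and
`cy c * f^* s = cy e` for a cycle `e` of codimension `j + dim S` (`cy_mul`).  `e` is numerically
equivalent to `0`: for `w` of complementary codimension
`∫ cy c f^* s cy w = ∫ cy c cy w f^* s = (tr s) ∫_X cy c' cy w|_X` (`hE.tr`; classes of cycles have
even degree, so they commute with everything), and `cy w|_X` is the class of a cycle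
(`exists_restrict`), `dim_model`.  So `cy e = 0` by `hD`.  Then
`0 = ∫ cy c f^* s y = (tr s) ∫_X cy c' y|_X` for all `y`, and `hnd` gives `cy c' = 0`.
-/

universe u v w

open CategoryTheory AlgebraicGeometry Limits

namespace Pool.Agent.Helper11.FP

open Pool.Agent.Helper10 Pool.Agent.Helper10.SmProjVar

variable {F k : Type u} [Field F] [Field k] [Algebra F k] {K : Type v} [Field K] [CharZero K]
  {W : WeilCohomology.{u, v, w} F K} {W' : WeilCohomology.{u, v, w} k K} {S : SmProjVar F}
  {σ : Spec (CommRingCat.of k) ⟶ S.toOver.left} {X : SmProjVar k}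

/-- A closed point of a smooth projective variety has dimension zero and finite residue degree. -/
lemma exists_closed_point (S : SmProjVar F) :
    ∃ x : S.Pt, S.pointDim x = 0 ∧ S.residueDeg x ≠ 0 := by
  have h1 : CompactSpace S.toOver.left := by
    have : CompactSpace (Spec (CommRingCat.of F)) := inferInstance
    exact QuasiCompact.compactSpace_of_compactSpace S.toOver.hom
  obtain ⟨x, -, hx⟩ := (isClosed_univ (X := S.toOver.left)).exists_closed_singleton
    ⟨genericPoint S.toOver.left, trivial⟩
  have hfin : IsFinite (S.toOver.left.fromSpecResidueField x ≫ S.toOver.hom) := by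
    have := isClosed_singleton_iff_isClosedImmersion.mp hx
    rw [isFinite_iff_locallyOfFiniteType_of_jacobsonSpace]
    infer_instance
  refine ⟨x, ?_, ?_⟩
  · rw [Pool.Agent.Helper47.Desc.pointDim_eq_toNat]
    have h2 : IsFinite (Spec.map (Pool.Agent.Helper47.Desc.resHom S x)) := by
      rw [Pool.Agent.Helper47.Desc.resHom, Spec.map_preimage]
      exact hfin
    rw [IsFinite.SpecMap_iff] at h2
    unfold Pool.Agent.Helper47.Desc.trd
    let _ : Algebra F (S.toOver.left.residueField x) :=
      (Pool.Agent.Helper47.Desc.resHom S x).hom.toAlgebra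
    have h3 : Module.Finite F (S.toOver.left.residueField x) := h2
    have h4 : Algebra.trdeg F (S.toOver.left.residueField x) = 0 := by
      have : Algebra.IsAlgebraic F (S.toOver.left.residueField x) :=
        Algebra.IsAlgebraic.of_finite F (S.toOver.left.residueField x)
      exact _root_.trdeg_eq_zero
    change Cardinal.toNat (Algebra.trdeg F (S.toOver.left.residueField x)) = 0
    rw [h4]
    exact Cardinal.zero_toNat
  · have h2 : IsFinite (Spec.map (S.toOver.hom.residueFieldMap x)) := by
      have h3 : IsFinite (Spec.map (S.toOver.hom.residueFieldMap x) ≫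
          (Spec (CommRingCat.of F)).fromSpecResidueField (S.toOver.hom x)) := by
        rw [Scheme.Hom.SpecMap_residueFieldMap_fromSpecResidueField]
        exact hfin
      exact MorphismProperty.of_postcomp (W := @IsFinite) (W' := @IsSeparated) _
        ((Spec (CommRingCat.of F)).fromSpecResidueField (S.toOver.hom x)) inferInstance h3
    rw [IsFinite.SpecMap_iff] at h2
    change S.toOver.hom.residueDegree x ≠ 0
    unfold Scheme.Hom.residueDegree
    let _ := (S.toOver.hom.residueFieldMap x).hom.toAlgebra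
    have h3 : Module.Finite ((Spec (CommRingCat.of F)).residueField (S.toOver.hom x))
      (S.toOver.left.residueField x) := h2
    exact Module.finrank_pos.ne'

/-- There is a cycle of dimension zero on `S` with non-zero degree. -/
theorem exists_point_class (W : WeilCohomology.{u, v, w} F K) (S : SmProjVar F) :
    ∃ c : S.Z S.dim, W.tr S (W.cy S S.dim c) ≠ 0 := by
  classical
  obtain ⟨x, hx, hx'⟩ := exists_closed_point S
  have hco : ∀ y, Cyc.coeff (S.pointCycle x) y = if y = x then 1 else 0 := by
    intro y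
    exact Function.locallyFinsuppWithin.single_apply (X := S.toOver.left) (Y := ℤ)
      (x₁ := x) (x₂ := y) (y := (1 : ℤ))
  have hc : ∀ y, Cyc.coeff (S.pointCycle x) y ≠ 0 → S.pointDim y + S.dim = S.dim := by
    intro y hy
    rw [hco] at hy
    split_ifs at hy with h
    · rw [h, hx, zero_add]
    · exact absurd rfl hy
  refine ⟨⟨S.pointCycle x, hc⟩, ?_⟩
  rw [W.cycleClasses.tr_point S x ⟨S.pointCycle x, hc⟩ rfl]
  exact_mod_cast hx'

/-- The class of a cycle on `Y` whose restriction to the generic fibre is numerically trivial,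
times the class of a closed fibre, is zero. -/
theorem cy_mul_pull_eq_zero {E : Comparison W W'} (hσ : IsGenericPoint σ)
    (hE : E.IsCompatible σ) (m : Model σ X) {j : ℕ} (hD : StandardDAt W m.Y (j + S.dim))
    {c : m.Y.Z j} {c' : X.Z j}
    (hcc' : ∀ x, c'.toCyc.coeff x = c.toCyc.coeff (m.incl.toHom x))
    (hnum : ∀ i, j + i = X.dim → ∀ d : X.Z i, W'.tr X (W'.cy X j c' * W'.cy X i d) = 0)
    (c0 : S.Z S.dim) : W.cy m.Y j c * W.pull m.f (W.cy S S.dim c0) = 0 := by
  obtain ⟨p, hp⟩ := W.cycleClasses.cy_pull m.f S.dim c0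
  obtain ⟨e, he⟩ := W.cycleClasses.cy_mul m.Y j S.dim c p
  obtain ⟨o, ho⟩ := exists_cycle_zero m.Y (j + S.dim)
  rw [← hp, ← he, ← W.cy_of_zero o ho]
  refine hD e o fun i hi w => ?_
  have h1 := W.cycleClasses.tr_cy_mul m.Y _ i e w hi
  have h2 := W.cycleClasses.tr_cy_mul m.Y _ i o w hi
  rw [W.cy_of_zero o ho, zero_mul] at h2
  have h0 : W.tr m.Y 0 = 0 := (W.trL m.Y).map_zero
  rw [h0] at h2
  obtain ⟨w', hw'⟩ := exists_restrict hσ m w
  have h3 : W.tr m.Y (W.cy m.Y (j + S.dim) e * W.cy m.Y i w) = 0 := by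
    rw [he, hp, mul_assoc, ← Pool.Agent.Helper47.Chow.even_comm W m.Y i _ _
      (W.cycleClasses.cy_mem m.Y i w), ← mul_assoc,
      hE.tr m _ _ (W.cycleClasses.cy_mem S S.dim c0), (E.isHom m.incl).map_mul,
      hE.cy m j c c' hcc', hE.cy m i w w' hw', hnum i ?_ w', mul_zero]
    have := dim_model hσ m
    omega
  rw [h3] at h1
  exact Int.cast_injective (α := K) (h1.symm.trans h2)

/-- The difference of two numerically equivalent cycles. -/
lemma exists_sub_cycle {j : ℕ} (a b : X.Z j) (hab : W'.NumEquiv X j a b) :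
    ∃ c' : X.Z j, W'.cy X j c' = W'.cy X j a - W'.cy X j b ∧
      ∀ i, j + i = X.dim → ∀ d : X.Z i, W'.tr X (W'.cy X j c' * W'.cy X i d) = 0 := by
  obtain ⟨nb, hnb⟩ := exists_cycle_neg b
  obtain ⟨c', hc'⟩ := exists_cycle_add a nb
  obtain ⟨o, ho⟩ := exists_cycle_zero X j
  have h1 := W'.cycleClasses.cy_add X j a nb c' hc'
  have h2 := W'.cycleClasses.cy_add X j b nb o (fun x => by rw [hnb, ho, add_neg_cancel])
  rw [W'.cy_of_zero o ho] at h2
  have h3 : W'.cy X j c' = W'.cy X j a - W'.cy X j b := by
    rw [h1, sub_eq_add_neg, ← eq_neg_of_add_eq_zero_right h2.symm]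
  refine ⟨c', h3, fun i hi d => ?_⟩
  rw [h3, sub_mul]
  change W'.trL X _ = 0
  rw [map_sub]
  change W'.tr X _ - W'.tr X _ = 0
  rw [W'.cycleClasses.tr_cy_mul X j i a d hi, W'.cycleClasses.tr_cy_mul X j i b d hi,
    hab i hi d, sub_self]

/-- **FP-C3.** -/
theorem standardDAt_of_model (E : Comparison W W') (hσ : IsGenericPoint σ)
    (hE : E.IsCompatible σ) (m : Model σ X) (hnd : FixedPartNondegenerate E m) {j : ℕ}
    (hD : StandardDAt W m.Y (j + S.dim)) : StandardDAt W' X j := by
  intro a b hab
  obtain ⟨c', hc', hnum⟩ := exists_sub_cycle a b hab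
  obtain ⟨c, hc⟩ := exists_closure hσ m c'
  obtain ⟨c0, hc0⟩ := exists_point_class W S
  have h0 := cy_mul_pull_eq_zero hσ hE m hD hc hnum c0
  have h1 : E.res m.incl (W.cy m.Y j c) = 0 := by
    refine hnd _ fun y' => ?_
    have h2 := hE.tr m (W.cy m.Y j c * y') _ (W.cycleClasses.cy_mem S S.dim c0)
    have h3 : W.cy m.Y j c * y' * W.pull m.f (W.cy S S.dim c0) = 0 := by
      have hs : W.pull m.f (W.cy S S.dim c0) ∈ W.gr m.Y (2 * S.dim) :=
        (W.pull_hom m.f).map_mem _ _ (W.cycleClasses.cy_mem S S.dim c0)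
      rw [mul_assoc, ← Pool.Agent.Helper47.Chow.even_comm W m.Y S.dim _ _ hs, ← mul_assoc, h0,
        zero_mul]
    have h4 : W.tr m.Y 0 = 0 := (W.trL m.Y).map_zero
    rw [h3, h4, (E.isHom m.incl).map_mul] at h2
    exact (mul_eq_zero.mp h2.symm).resolve_left hc0
  rw [hE.cy m j c c' hc, hc'] at h1
  exact sub_eq_zero.mp h1

end Pool.Agent.Helper11.FP
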