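import Mathlib
import Pool.Agent.Helper11.FP.Basic
import Pool.Agent.Helper10.Descent
import Pool.Agent.Helper11.Iso.Projector

/-!
# FP-C1: the projector onto the part of the cohomology which comes from `A` is algebraic

Hints.  Apply `Pool.Agent.Helper11.Iso.exists_projector` (in `Helper11/Iso/Projector.lean`) to
`P := W.toSPre K`, with `ι := Unit` and the constant family `A` (`d_of_standardD` gives the
hypothesis `P.D`); it gives a class `q` with `op q = 0` on `image P A V`, `op q = id` on the
orthogonal complement.  The class wanted is `delta P V - q`.  `(W.toSPre K).H V = K ⊗[K] W.H V`: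
translate with `TensorProduct.lid` or `1 ⊗ₜ z` (compare `eq_zero_of_standardD` in
`Helper10/DegenThm.lean`, and `Helper10/CritThm.lean`).  Or prove the statement directly in
`W.H V`, copying the proof in `Helper11/Iso/Projector.lean`.
-/

universe u v w

open CategoryTheory AlgebraicGeometry Limits

namespace Pool.Agent.Helper11.FP

open Pool.Agent.Helper10 Pool.Agent.Helper10.SmProjVar

variable {F : Type u} [Field F] {K : Type v} [Field K] [CharZero K]

open Pool.Agent.Helper11.Iso TensorProduct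

/-- an isomorphism between the auxiliary setting with coefficients `K` and the theory itself -/
structure IsoP (W : WeilCohomology.{u, v, w} F K) (P : SPre.{u, v, max v w, v} F K K) where
  e : ∀ X, P.H X →ₐ[K] W.H X
  i : ∀ X, W.H X →ₗ[K] P.H X
  e_i : ∀ {X} x, e X (i X x) = x
  i_e : ∀ {X} x, i X (e X x) = x
  trL_e : ∀ {X} x, W.trL X (e X x) = P.tr X x
  pullA_e : ∀ {X Y : SmProjVar F} (f : X.toOver ⟶ Y.toOver) (y : P.H Y),
    W.pullA f (e Y y) = e X (P.pull f y)
  e_mem : ∀ {X} c, c ∈ P.alg X → e X c ∈ W.algClasses X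
  i_mem : ∀ {X} c, c ∈ W.algClasses X → i X c ∈ P.alg X

namespace IsoP

open SPre

variable {W : WeilCohomology.{u, v, w} F K} {P : SPre.{u, v, max v w, v} F K K} (I : IsoP W P)

/-- the operator attached to a class -/
lemma trL_e_op {A V : SmProjVar F} (c : P.H (A.prod V)) (x : P.H A) (y : W.H V) :
    W.trL V (I.e V (op c x) * y) = W.trL (A.prod V)
      (W.pullA (fst A V) (I.e A x) * I.e (A.prod V) c * W.pullA (snd A V) y) := by
  obtain ⟨y, rfl⟩ : ∃ y', y = I.e V y' := ⟨I.i V y, (I.e_i y).symm⟩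
  rw [← map_mul, I.trL_e, op_apply, SPre.tr_pushF, ← I.trL_e, I.pullA_e, I.pullA_e,
    map_mul (I.e (A.prod V)), map_mul (I.e (A.prod V))]

lemma i_mem_image {A V : SmProjVar F} {z : W.H V} (hz : z ∈ imageK W A V) :
    I.i V z ∈ image P (fun _ : Unit => A) V := by
  unfold imageK at hz
  induction hz using Submodule.span_induction with
  | mem z hz =>
    obtain ⟨γ, hγ, x, h⟩ := hz
    have h2 : I.i V z = op (I.i _ γ) (I.i A x) := by
      rw [← I.i_e (op (I.i _ γ) (I.i A x))]
      congr 1
      rw [← sub_eq_zero]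
      refine (W.trace V).nondegenerate _ fun y => ?_
      change W.trL V ((z - _) * y) = 0
      rw [sub_mul, map_sub, h, I.trL_e_op, I.e_i, I.e_i, sub_self]
    rw [h2]
    exact Submodule.subset_span ⟨(), _, _, I.i_mem _ hγ, rfl⟩
  | zero => rw [map_zero]; exact Submodule.zero_mem _
  | add a b _ _ ha hb => rw [map_add]; exact Submodule.add_mem _ ha hb
  | smul a b _ hb => rw [map_smul]; exact Submodule.smul_mem _ _ hb

lemma e_mem_imageK {A V : SmProjVar F} {z : P.H V} (hz : z ∈ image P (fun _ : Unit => A) V) :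
    I.e V z ∈ imageK W A V := by
  unfold Iso.image at hz
  induction hz using Submodule.span_induction with
  | mem z hz =>
    obtain ⟨_, κ, x, hκ, rfl⟩ := hz
    exact Submodule.subset_span ⟨_, I.e_mem _ hκ, I.e A x, fun y => I.trL_e_op κ x y⟩
  | zero => rw [map_zero]; exact Submodule.zero_mem _
  | add a b _ _ ha hb => rw [map_add]; exact Submodule.add_mem _ ha hb
  | smul a b _ hb => rw [map_smul]; exact Submodule.smul_mem _ _ hb

omit [CharZero K] in
lemma par_mem_image {P : SPre.{u, v, max v w, v} F K K} {A V : SmProjVar F}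
    {z : P.H V} (hz : z ∈ image P (fun _ : Unit => A) V) :
    par P V z ∈ image P (fun _ : Unit => A) V := by
  unfold Iso.image at hz ⊢
  induction hz using Submodule.span_induction with
  | mem z hz =>
    obtain ⟨_, κ, x, hκ, rfl⟩ := hz
    rw [← op_par (P.alg_le_ev _ hκ)]
    exact Submodule.subset_span ⟨(), κ, _, hκ, rfl⟩
  | zero => rw [map_zero]; exact Submodule.zero_mem _
  | add a b _ _ ha hb => rw [map_add]; exact Submodule.add_mem _ ha hb
  | smul a b _ hb => rw [map_smul]; exact Submodule.smul_mem _ _ hb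

include I in
theorem exists_projector {A V : SmProjVar F} (hD : P.D (A.prod V)) :
    ∃ u : W.H V →ₗ[K] W.H V, W.IsAlgebraicMap V V u ∧ (∀ z ∈ imageK W A V, u z = z) ∧
      (∀ z, u z ∈ imageK W A V) ∧
      (∀ z, (∀ i ∈ imageK W A V, W.trL V (z * i) = 0) → u z = 0) := by
  obtain ⟨q, hq, h0, h1, h2, h3⟩ := Iso.exists_projector (P := P) (V := V)
    (fun _ : Unit => A) (fun _ => hD)
  have hδ : ∀ y, op (delta P V) y = y := by
    intro y
    rw [op_apply, delta, ← pushF_pull_mul, ← pushF_comp, SPre.pull_pull, lift_fst,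
      lift_snd, pull_id_apply, pushF_id, mul_one]
  have hop : ∀ y, op (delta P V - q) y = y - op q y := by
    intro y
    have : op (delta P V - q) = op (delta P V) - op q := by
      rw [sub_eq_add_neg, Iso.op_add, ← neg_one_smul K q, op_smul, sub_eq_add_neg]
      ext z
      simp
    rw [this, LinearMap.sub_apply, hδ]
  let u : W.H V →ₗ[K] W.H V := (I.e V).toLinearMap ∘ₗ (op (delta P V - q)) ∘ₗ (I.i V)
  have hu : ∀ z, u z = I.e V (op (delta P V - q) (I.i V z)) := fun z => rfl
  have hu' : ∀ z, u z = z - I.e V (op q (I.i V z)) := by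
    intro z
    rw [hu, hop, map_sub, I.e_i]
  refine ⟨u, ⟨I.e _ (delta P V - q),
    I.e_mem _ (Submodule.sub_mem _ (delta_mem V) hq), fun x y => ?_⟩, fun z hz => ?_,
    fun z => ?_, fun z hz => ?_⟩
  · have h := I.trL_e_op (delta P V - q) (I.i V x) y
    rw [I.e_i] at h
    exact h
  · rw [hu', h0 _ (I.i_mem_image hz), map_zero, sub_zero]
  · have h4 : I.i V z ∈ image P (fun _ : Unit => A) V ⊔
          orth P (image P (fun _ : Unit => A) V) := by
      rw [h3]; trivial
    obtain ⟨a, ha, b, hb, hab⟩ := Submodule.mem_sup.mp h4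
    have h5 : u z = I.e V a := by
      rw [hu, hop, ← hab, map_add (op q), h0 a ha, h1 b hb, zero_add, add_sub_cancel_right]
    rw [h5]
    exact I.e_mem_imageK ha
  · have h4 : I.i V z ∈ orth P (image P (fun _ : Unit => A) V) := by
      rw [mem_orth]
      intro m hm
      have h5 := hz _ (I.e_mem_imageK (par_mem_image hm))
      obtain ⟨z', rfl⟩ : ∃ z', z = I.e V z' := ⟨I.i V z, (I.e_i z).symm⟩
      rw [← map_mul, I.trL_e, tr_par, par_par] at h5
      rw [I.i_e]
      exact h5
    rw [hu', h1 _ h4, I.e_i, sub_self]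

end IsoP

/-- the isomorphism `K ⊗ H(X) = H(X)` -/
noncomputable def eL (W : WeilCohomology.{u, v, w} F K) (X : SmProjVar F) :
    W.HΩ K X →ₐ[K] W.H X := (Algebra.TensorProduct.lid K (W.H X)).toAlgHom

lemma eL_tmul (W : WeilCohomology.{u, v, w} F K) (X : SmProjVar F) (a : K) (x : W.H X) :
    eL W X (a ⊗ₜ[K] x) = a • x := by
  simp [eL]

lemma tmul_eL (W : WeilCohomology.{u, v, w} F K) (X : SmProjVar F) (x : W.HΩ K X) :
    (1 : K) ⊗ₜ[K] (eL W X x) = x := by
  induction x using TensorProduct.induction_on with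
  | zero => rw [map_zero, TensorProduct.tmul_zero]
  | tmul a y => rw [eL_tmul, TensorProduct.tmul_smul, TensorProduct.smul_tmul', smul_eq_mul, mul_one]
  | add x y hx hy => rw [map_add, TensorProduct.tmul_add, hx, hy]

lemma trL_eL (W : WeilCohomology.{u, v, w} F K) (X : SmProjVar F) (x : W.HΩ K X) :
    W.trL X (eL W X x) = W.trΩ K X x := by
  conv_rhs => rw [← tmul_eL W X x]
  rw [WeilCohomology.trΩ_tmul, smul_eq_mul, mul_one]

lemma pullA_eL (W : WeilCohomology.{u, v, w} F K) {X Y : SmProjVar F}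
    (f : X.toOver ⟶ Y.toOver) (y : W.HΩ K Y) :
    W.pullA f (eL W Y y) = eL W X (W.pullΩ K f y) := by
  conv_rhs => rw [← tmul_eL W Y y]
  rw [WeilCohomology.pullΩ_tmul, eL_tmul, one_smul]

lemma eL_mem_alg (W : WeilCohomology.{u, v, w} F K) {X : SmProjVar F} {c : W.HΩ K X}
    (hc : c ∈ W.algΩ K X) : eL W X c ∈ W.algClasses X := by
  change c ∈ (W.algClasses X).baseChange K at hc
  refine baseChange_induction _ (p := fun c => eL W X c ∈ W.algClasses X) ?_ ?_ ?_ ?_ hc
  · intro y hy
    rw [eL_tmul, one_smul]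
    exact hy
  · rw [map_zero]; exact Submodule.zero_mem _
  · intro a b ha hb
    rw [map_add]; exact Submodule.add_mem _ ha hb
  · intro a b hb
    rw [map_smul]; exact Submodule.smul_mem _ _ hb

/-- the isomorphism for `W.toSPre K` -/
noncomputable def isoP (W : WeilCohomology.{u, v, w} F K) : IsoP W (W.toSPre K) where
  e := eL W
  i X := TensorProduct.mk K K (W.H X) 1
  e_i {X} x := by
    change eL W X ((1 : K) ⊗ₜ[K] x) = x
    rw [eL_tmul, one_smul]
  i_e x := tmul_eL W _ x
  trL_e x := trL_eL W _ x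
  pullA_e f y := pullA_eL W f y
  e_mem _ hc := eL_mem_alg W hc
  i_mem _ hc := Submodule.tmul_mem_baseChange_of_mem 1 hc

/-- **FP-C1.** -/
theorem exists_projector (W : WeilCohomology.{u, v, w} F K) (A V : SmProjVar F)
    (hD : W.StandardD (A.prod V)) :
    ∃ u : W.H V →ₗ[K] W.H V, W.IsAlgebraicMap V V u ∧ (∀ z ∈ imageK W A V, u z = z) ∧
      (∀ z, u z ∈ imageK W A V) ∧
      (∀ z, (∀ i ∈ imageK W A V, W.trL V (z * i) = 0) → u z = 0) :=
  (isoP W).exists_projector (W.d_of_standardD K hD)

end Pool.Agent.Helper11.FP
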