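import Mathlib
import Pool.Agent.Helper11.FP.Defs

/-!
# FP-G3: models of products

Hints.  Pasting of cartesian squares.  For `prodModel`: `(V' × X) → V × Y` over `σ`.  The square
`V' ×_k X ⟶ V × Y` over `X ⟶ Y` (projections to the second factor) is cartesian, because
`V' = V ×_F k`; paste it with `m.isPullback`.  For `constModel`: `V' ⟶ V × S` over `σ`.
-/

universe u v w

open CategoryTheory AlgebraicGeometry Limits

namespace Pool.Agent.Helper11.FP

open Pool.Agent.Helper10 Pool.Agent.Helper10.SmProjVar

noncomputable section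

variable {F k : Type u} [Field F] [Field k] [Algebra F k] {S : SmProjVar F}
  {σ : Spec (CommRingCat.of k) ⟶ S.toOver.left} {X : SmProjVar k}

/-- The morphism `V' × X ⟶ V × Y`. -/
def prodMor {V' X : SmProjVar k} {V Y : SmProjVar F} (g : Mor V' V) (h : Mor X Y) :
    Mor (V'.prod X) (V.prod Y) where
  toHom := pullback.lift (f := V.toOver.hom) (g := Y.toOver.hom) ((fst V' X).left ≫ g.toHom)
    ((snd V' X).left ≫ h.toHom) (by
      rw [Category.assoc, Category.assoc, g.w, h.w, ← Category.assoc, ← Category.assoc,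
        Over.w, Over.w])
  w := by
    change pullback.lift _ _ _ ≫ pullback.fst V.toOver.hom Y.toOver.hom ≫ V.toOver.hom = _
    rw [pullback.lift_fst_assoc, Category.assoc, g.w, ← Category.assoc, Over.w]

lemma prodMor_fst {V' X : SmProjVar k} {V Y : SmProjVar F} (g : Mor V' V) (h : Mor X Y) :
    (prodMor g h).postcomp (fst V Y) = g.precomp (fst V' X) := by
  unfold Mor.postcomp Mor.precomp
  congr 1
  exact pullback.lift_fst _ _ _

lemma prodMor_snd {V' X : SmProjVar k} {V Y : SmProjVar F} (g : Mor V' V) (h : Mor X Y) :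
    (prodMor g h).postcomp (snd V Y) = h.precomp (snd V' X) := by
  unfold Mor.postcomp Mor.precomp
  congr 1
  exact pullback.lift_snd _ _ _

/-- **FP-G3a.** -/
theorem isPullback_prodMor {V' X : SmProjVar k} {V : SmProjVar F} (g : Mor V' V)
    (hg : g.IsBaseChange) (m : Model σ X) :
    IsPullback (prodMor g m.incl).toHom (V'.prod X).toOver.hom (snd V m.Y ≫ m.f).left σ := by
  have h1 : IsPullback (pullback.fst V'.toOver.hom X.toOver.hom ≫ g.toHom)
      (pullback.snd V'.toOver.hom X.toOver.hom) V.toOver.hom (X.toOver.hom ≫ specMap F k) :=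
    (IsPullback.of_hasPullback V'.toOver.hom X.toOver.hom).paste_horiz hg
  have h2 : IsPullback (pullback.fst V.toOver.hom m.Y.toOver.hom)
      (pullback.snd V.toOver.hom m.Y.toOver.hom) V.toOver.hom m.Y.toOver.hom :=
    IsPullback.of_hasPullback V.toOver.hom m.Y.toOver.hom
  have e1 : (prodMor g m.incl).toHom ≫ pullback.fst V.toOver.hom m.Y.toOver.hom =
      pullback.fst V'.toOver.hom X.toOver.hom ≫ g.toHom :=
    pullback.lift_fst _ _ _
  have e2 : (prodMor g m.incl).toHom ≫ pullback.snd V.toOver.hom m.Y.toOver.hom =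
      pullback.snd V'.toOver.hom X.toOver.hom ≫ m.incl.toHom :=
    pullback.lift_snd _ _ _
  have h3 : IsPullback ((prodMor g m.incl).toHom ≫ pullback.fst V.toOver.hom m.Y.toOver.hom)
      (pullback.snd V'.toOver.hom X.toOver.hom) V.toOver.hom
      (m.incl.toHom ≫ m.Y.toOver.hom) := by
    rw [e1, m.incl.w]
    exact h1
  have h4 : IsPullback (prodMor g m.incl).toHom (pullback.snd V'.toOver.hom X.toOver.hom)
      (pullback.snd V.toOver.hom m.Y.toOver.hom) m.incl.toHom :=
    IsPullback.of_right h3 e2 h2
  have h5 := h4.paste_vert m.isPullback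
  have e3 : (V'.prod X).toOver.hom = pullback.snd V'.toOver.hom X.toOver.hom ≫ X.toOver.hom :=
    pullback.condition
  rw [e3]
  exact h5

/-- The model `V × Y` of `V' × X`, for a base change `V'` of `V` and a model `Y` of `X`. -/
def prodModel {V' X : SmProjVar k} {V : SmProjVar F} (g : Mor V' V) (hg : g.IsBaseChange)
    (m : Model σ X) : Model σ (V'.prod X) where
  Y := V.prod m.Y
  f := snd V m.Y ≫ m.f
  incl := prodMor g m.incl
  isPullback := isPullback_prodMor g hg m

/-- The morphism `V' ⟶ V × S`. -/
def constMor (hσ : IsGenericPoint σ) {V' : SmProjVar k} {V : SmProjVar F} (g : Mor V' V) :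
    Mor V' (V.prod S) where
  toHom := pullback.lift (f := V.toOver.hom) (g := S.toOver.hom) g.toHom
    (V'.toOver.hom ≫ σ) (by rw [Category.assoc, hσ.w, g.w])
  w := by
    change pullback.lift _ _ _ ≫ pullback.fst V.toOver.hom S.toOver.hom ≫ V.toOver.hom = _
    rw [pullback.lift_fst_assoc, g.w]

lemma constMor_fst (hσ : IsGenericPoint σ) {V' : SmProjVar k} {V : SmProjVar F} (g : Mor V' V) :
    (constMor hσ g).postcomp (fst V S) = g := by
  unfold Mor.postcomp
  cases g
  congr 1
  exact pullback.lift_fst _ _ _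

/-- **FP-G3b.** -/
theorem isPullback_constMor (hσ : IsGenericPoint σ) {V' : SmProjVar k} {V : SmProjVar F}
    (g : Mor V' V) (hg : g.IsBaseChange) :
    IsPullback (constMor hσ g).toHom V'.toOver.hom (snd V S).left σ := by
  have h2 : IsPullback (pullback.fst V.toOver.hom S.toOver.hom)
      (pullback.snd V.toOver.hom S.toOver.hom) V.toOver.hom S.toOver.hom :=
    IsPullback.of_hasPullback V.toOver.hom S.toOver.hom
  have e1 : (constMor hσ g).toHom ≫ pullback.fst V.toOver.hom S.toOver.hom = g.toHom :=
    pullback.lift_fst _ _ _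
  have e2 : (constMor hσ g).toHom ≫ pullback.snd V.toOver.hom S.toOver.hom =
      V'.toOver.hom ≫ σ :=
    pullback.lift_snd _ _ _
  have h3 : IsPullback ((constMor hσ g).toHom ≫ pullback.fst V.toOver.hom S.toOver.hom)
      V'.toOver.hom V.toOver.hom (σ ≫ S.toOver.hom) := by
    rw [e1, hσ.w]
    exact hg
  exact IsPullback.of_right h3 e2 h2

/-- The model `V × S` of a base change `V'` of `V`. -/
def constModel (hσ : IsGenericPoint σ) {V' : SmProjVar k} {V : SmProjVar F} (g : Mor V' V)
    (hg : g.IsBaseChange) : Model σ V' where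
  Y := V.prod S
  f := snd V S
  incl := constMor hσ g
  isPullback := isPullback_constMor hσ g hg

end

end Pool.Agent.Helper11.FP
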