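import Mathlib
import Pool.Agent.Helper11.FP.Basic
import Pool.Agent.Helper11.FP.St.G2
import Pool.Agent.Helper11.FP.St.G3

/-!
# FP-C2: the fixed part is the part which comes from `Y ×_F k` by algebraic correspondences

Hints.  `Y' = Y ×_F k` (with `g : Y' ⟶ Y`).  `⊇`: the universal property of `Y'` gives
`h : X ⟶ Y'` over `k` with `g.precomp h = m.incl`; for `z = E.res m.incl y` take
`x := E.res g y` and for `γ` the class of the graph of `h`, the push-forward of `1` along `(h, id)`
(`W'.push_mem_algClasses`).  `⊆`: it is enough to treat `γ = cy c'`, `c'` a cycle on `Y' × X`.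
`prodModel g hg m` is a model of `Y' × X`; `exists_closure` and `hE.cy` give
`γ = res (cy c)` with `c` a cycle on `Y × Y`.  By the Künneth formula
`cy c = ∑ fst^* a_i * snd^* b_i`, so `γ = ∑ fst^* (g^* a_i) * snd^* (b_i|_X)` (`prodMor_fst`,
`prodMor_snd`, `res_precomp`, `res_postcomp`), and the element `z` attached to `γ` and `x = g^* x₀`
(`E.bijective`) is `∑ tr (g^* (x₀ a_i)) • b_i|_X` by `W'.tr_prod` and Poincaré duality (if all signs
are as in the definition of `imageK`, there are no signs; work with the linear map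
`H(Y × Y) → Hom(H(Y'), H'(X))` and induct on the tensor).
-/

universe u v w

open CategoryTheory AlgebraicGeometry Limits TensorProduct

namespace Pool.Agent.Helper11.FP

open Pool.Agent.Helper10 Pool.Agent.Helper10.SmProjVar

variable {F k : Type u} [Field F] [Field k] [Algebra F k] {K : Type v} [Field K] [CharZero K]
  {W : WeilCohomology.{u, v, w} F K} {W' : WeilCohomology.{u, v, w} k K} {S : SmProjVar F}
  {σ : Spec (CommRingCat.of k) ⟶ S.toOver.left} {X : SmProjVar k}

/-- Künneth induction. -/
lemma kunneth_induction {F : Type u} [Field F] {K : Type v} [Field K] [CharZero K]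
    (W : WeilCohomology.{u, v, w} F K) (A B : SmProjVar F) {p : W.H (A.prod B) → Prop}
    (hmem : ∀ a b, p (W.pullA (fst A B) a * W.pullA (snd A B) b)) (h0 : p 0)
    (hadd : ∀ x y, p x → p y → p (x + y)) (z : W.H (A.prod B)) : p z := by
  let m : W.H A ⊗[K] W.H B →ₗ[K] W.H (A.prod B) :=
    TensorProduct.lift (((LinearMap.mul K (W.H (A.prod B))).compl₂
      (W.pullA (snd A B)).toLinearMap).comp (W.pullA (fst A B)).toLinearMap)
  have hm : ∀ a b, m (a ⊗ₜ b) = W.pull (fst A B) a * W.pull (snd A B) b := by
    intro a b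
    simp only [m, TensorProduct.lift.tmul]
    rfl
  obtain ⟨t, rfl⟩ := (W.kunneth A B m hm).2 z
  induction t using TensorProduct.induction_on with
  | zero => rw [map_zero]; exact h0
  | tmul a b => rw [hm]; exact hmem a b
  | add x y hx hy => rw [map_add]; exact hadd _ _ hx hy

lemma eq_of_tr {k : Type u} [Field k] {K : Type v} [Field K] [CharZero K]
    (W' : WeilCohomology.{u, v, w} k K) (X : SmProjVar k) (a b : W'.H X)
    (h : ∀ t, W'.trL X (a * t) = W'.trL X (b * t)) : a = b := by
  rw [← sub_eq_zero]
  refine (W'.trace X).nondegenerate _ fun y => ?_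
  change W'.trL X ((a - b) * y) = 0
  rw [sub_mul, map_sub, h, sub_self]

/-- **FP-C2.** -/
theorem mem_imageK_iff (E : Comparison W W') (hσ : IsGenericPoint σ) (hE : E.IsCompatible σ)
    (m : Model σ X) {Y' : SmProjVar k} (g : Mor Y' m.Y) (hg : g.IsBaseChange) (z : W'.H X) :
    z ∈ imageK W' Y' X ↔ ∃ y, z = E.res m.incl y := by
  constructor
  · intro hz
    -- the linear statement in `γ`
    have key : ∀ γ ∈ W'.algClasses (Y'.prod X), ∀ x : W'.H Y', ∃ y0 : W.H m.Y, ∀ t : W'.H X,
        W'.trL X (E.resA m.incl y0 * t) =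
          W'.trL (Y'.prod X) (W'.pullA (fst Y' X) x * γ * W'.pullA (snd Y' X) t) := by
      have hlin : ∀ w : W.H (m.Y.prod m.Y), ∀ x : W'.H Y', ∃ y0 : W.H m.Y, ∀ t : W'.H X,
          W'.trL X (E.resA m.incl y0 * t) =
            W'.trL (Y'.prod X) (W'.pullA (fst Y' X) x * E.resA (prodMor g m.incl) w *
              W'.pullA (snd Y' X) t) := by
        intro w
        refine kunneth_induction W m.Y m.Y (p := fun w => ∀ x : W'.H Y', ∃ y0 : W.H m.Y,
          ∀ t : W'.H X, W'.trL X (E.resA m.incl y0 * t) =
            W'.trL (Y'.prod X) (W'.pullA (fst Y' X) x * E.resA (prodMor g m.incl) w *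
              W'.pullA (snd Y' X) t)) ?_ ?_ ?_ w
        · intro a b x
          have e1 : E.resA (prodMor g m.incl) (W.pullA (fst m.Y m.Y) a) =
              W'.pullA (fst Y' X) (E.resA g a) := by
            rw [Comparison.resA_apply, Comparison.resA_apply, WeilCohomology.pullA_apply,
              WeilCohomology.pullA_apply, ← E.res_postcomp, prodMor_fst, E.res_precomp]
          have e2 : E.resA (prodMor g m.incl) (W.pullA (snd m.Y m.Y) b) =
              W'.pullA (snd Y' X) (E.resA m.incl b) := by
            rw [Comparison.resA_apply, Comparison.resA_apply, WeilCohomology.pullA_apply,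
              WeilCohomology.pullA_apply, ← E.res_postcomp, prodMor_snd, E.res_precomp]
          refine ⟨W'.trL Y' (x * E.resA g a) • b, fun t => ?_⟩
          have e3 : W'.pullA (fst Y' X) x *
              E.resA (prodMor g m.incl) (W.pullA (fst m.Y m.Y) a * W.pullA (snd m.Y m.Y) b) *
              W'.pullA (snd Y' X) t =
              W'.pullA (fst Y' X) (x * E.resA g a) *
                W'.pullA (snd Y' X) (E.resA m.incl b * t) := by
            rw [map_mul (E.resA (prodMor g m.incl)), e1, e2, map_mul, map_mul]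
            simp only [mul_assoc]
          rw [e3, map_smul, smul_mul_assoc, map_smul, smul_eq_mul]
          exact (W'.tr_prod Y' X _ _).symm
        · intro x
          refine ⟨0, fun t => ?_⟩
          rw [map_zero, zero_mul, map_zero, map_zero, mul_zero, zero_mul, map_zero]
        · intro w1 w2 h1 h2 x
          obtain ⟨y1, hy1⟩ := h1 x
          obtain ⟨y2, hy2⟩ := h2 x
          refine ⟨y1 + y2, fun t => ?_⟩
          rw [map_add, add_mul, map_add, hy1, hy2, map_add, mul_add, add_mul, map_add]
      intro γ hγ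
      unfold CohomologyData.algClasses at hγ
      induction hγ using Submodule.span_induction with
      | mem γ hγ =>
        obtain ⟨j, c', rfl⟩ := hγ
        obtain ⟨c, hc⟩ := exists_closure hσ (prodModel g hg m) c'
        have h1 := hE.cy (prodModel g hg m) j c c' hc
        intro x
        obtain ⟨y0, hy0⟩ := hlin (W.cy (m.Y.prod m.Y) j c) x
        refine ⟨y0, fun t => ?_⟩
        rw [hy0 t, ← h1]
        rfl
      | zero =>
        intro x
        refine ⟨0, fun t => ?_⟩
        rw [map_zero, zero_mul, map_zero, mul_zero, zero_mul, map_zero]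
      | add a b _ _ ha hb =>
        intro x
        obtain ⟨y1, hy1⟩ := ha x
        obtain ⟨y2, hy2⟩ := hb x
        refine ⟨y1 + y2, fun t => ?_⟩
        rw [map_add, add_mul, map_add, hy1, hy2, mul_add, add_mul, map_add]
      | smul a b _ hb =>
        intro x
        obtain ⟨y1, hy1⟩ := hb x
        refine ⟨a • y1, fun t => ?_⟩
        rw [map_smul, smul_mul_assoc, map_smul, hy1, mul_smul_comm, smul_mul_assoc, map_smul]
    -- induction on the span
    unfold imageK at hz
    have : z ∈ LinearMap.range (E.resA m.incl).toLinearMap := by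
      refine (Submodule.span_le.mpr ?_) hz
      rintro z ⟨γ, hγ, x, h⟩
      obtain ⟨y0, hy0⟩ := key γ hγ x
      refine ⟨y0, ?_⟩
      refine eq_of_tr W' X _ _ fun t => ?_
      rw [h t]
      exact hy0 t
    obtain ⟨y, hy⟩ := this
    exact ⟨y, hy.symm⟩
  · rintro ⟨y, rfl⟩
    -- the morphism `h : X ⟶ Y'`
    have hw : m.incl.toHom ≫ m.Y.toOver.hom = X.toOver.hom ≫ specMap F k := m.incl.w
    let h0 : X.toOver.left ⟶ Y'.toOver.left := hg.lift m.incl.toHom X.toOver.hom hw
    let h : X.toOver ⟶ Y'.toOver := Over.homMk h0 (hg.lift_snd _ _ _)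
    have hgh : g.precomp h = m.incl := by
      have : h0 ≫ g.toHom = m.incl.toHom := hg.lift_fst _ _ _
      unfold Mor.precomp
      rcases hm : m.incl with ⟨a, b⟩
      congr 1
      rw [hm] at this
      exact this
    obtain ⟨γ, hγ, hγ'⟩ := W'.push_mem_algClasses (SmProjVar.lift h (𝟙 X.toOver)) 1
      (W'.one_mem_algClasses X)
    refine Submodule.subset_span ⟨γ, hγ, E.res g y, fun t => ?_⟩
    have hcomm : W'.pullA (fst Y' X) (E.res g y) * γ = γ * W'.pullA (fst Y' X) (E.res g y) :=
      (W'.evK_comm _ _ _ (W'.algClasses_le_evK _ hγ)).symm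
    rw [hcomm, mul_assoc, hγ', one_mul, map_mul (W'.pullA _), ← AlgHom.comp_apply, ← AlgHom.comp_apply,
      ← WeilCohomology.pullA_comp, ← WeilCohomology.pullA_comp, lift_fst, lift_snd,
      WeilCohomology.pullA_id, AlgHom.id_apply, WeilCohomology.pullA_apply, ← E.res_precomp, hgh]

end Pool.Agent.Helper11.FP
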