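import Mathlib
import Pool.Agent.Helper11.FP.Basic
import Pool.Agent.Helper11.FP.St.G2
import Pool.Agent.Helper11.FP.St.G3
import Pool.Agent.Helper11.FP.St.C3
import Pool.Agent.Helper10.Descent

/-!
# FP-C4: conjecture D for `V ×_F k` implies conjecture D for `V`

Hints.  `constModel hσ g hg` is the model `V × S` of `V' = V ×_F k`.  Let `a`, `b` be numerically
equivalent cycles of codimension `j` on `V`.  `res g (cy a) = res (constMor) (fst^* cy a)`
(`constMor_fst`, `res_postcomp`) is the class of a cycle `a'` of codimension `j` on `V'` (`cy_pull`,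
`exists_restrict`, `hE.cy`), similarly `b'`.  `a'`, `b'` are numerically equivalent: for a cycle `w'`
on `V'` with closure `w` on `V × S` (`exists_closure`), and `s` the class of a point of `S`
(`exists_point_class`), `(tr s) ∫_{V'} (cy a' - cy b') cy w' = ∫_{V × S} fst^* (cy a - cy b) cy w
snd^* s = ∫_V (cy a - cy b) z` with `z` the push-forward of `cy w snd^* s`, a combination of classes
of cycles (`W.push_mem_algClasses`); this is zero (the proof of `standardD_of_D` in
`Helper10/BaseChange.lean` contains the statement that `cy a - cy b` is orthogonal to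
`W.algClasses V`).  So `cy a' = cy b'` and `res g` is injective (`E.bijective`).
-/

universe u v w

open CategoryTheory AlgebraicGeometry Limits

namespace Pool.Agent.Helper11.FP

open Pool.Agent.Helper10 Pool.Agent.Helper10.SmProjVar

variable {F k : Type u} [Field F] [Field k] [Algebra F k] {K : Type v} [Field K] [CharZero K]
  {W : WeilCohomology.{u, v, w} F K} {W' : WeilCohomology.{u, v, w} k K} {S : SmProjVar F}
  {σ : Spec (CommRingCat.of k) ⟶ S.toOver.left}

/-- **FP-C4.** -/
theorem standardD_of_baseChange (E : Comparison W W') (hσ : IsGenericPoint σ)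
    (hE : E.IsCompatible σ) {V : SmProjVar F} {V' : SmProjVar k} (g : Mor V' V)
    (hg : g.IsBaseChange) (hD : W'.StandardD V') : W.StandardD V := by
  intro j a b hab
  unfold CohomologyData.HomEquiv
  rw [← sub_eq_zero]
  obtain ⟨z, hz⟩ : ∃ z, z = W.cy V j a - W.cy V j b := ⟨_, rfl⟩
  rw [← hz]
  have hzG : z ∈ W.cyG V j := by
    rw [hz]
    exact AddSubgroup.sub_mem _ (W.cy_mem_cyG a) (W.cy_mem_cyG b)
  have hzgr : z ∈ W.gr V (2 * j) := by
    rw [hz]
    exact Submodule.sub_mem _ (W.cycleClasses.cy_mem V j a) (W.cycleClasses.cy_mem V j b)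
  have hzev : z ∈ W.evK V := W.gr_le_evK V (even_two_mul j) hzgr
  have key : ∀ y ∈ W.algClasses V, W.trL V (z * y) = 0 := by
    intro y hy
    unfold CohomologyData.algClasses at hy
    induction hy using Submodule.span_induction with
    | mem y hy =>
      obtain ⟨i, c, rfl⟩ := hy
      by_cases hi : j + i = V.dim
      · rw [hz, sub_mul, map_sub, WeilCohomology.trL_apply, WeilCohomology.trL_apply,
          W.cycleClasses.tr_cy_mul V j i a c hi,
          W.cycleClasses.tr_cy_mul V j i b c hi, hab i hi c, sub_self]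
      · exact W.tr_eq_zero_of_gr V (i := 2 * j + 2 * i) (by omega)
          (W.gr_mul V hzgr (W.cycleClasses.cy_mem V i c))
    | zero => rw [mul_zero, map_zero]
    | add a b _ _ ha hb => rw [mul_add, map_add, ha, hb, add_zero]
    | smul a b _ hb => rw [mul_smul_comm, map_smul, hb, smul_zero]
  obtain ⟨e, he⟩ := hzG
  obtain ⟨c, hc⟩ := W.cycleClasses.cy_pull (fst V S) j e
  obtain ⟨c', hc'⟩ := exists_restrict hσ (constModel hσ g hg) (j := j) c
  have hres : E.res g z = W'.cy V' j c' := by
    have h1 := hE.cy (constModel hσ g hg) j c c' hc'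
    have h2 := E.res_postcomp (constMor hσ g) (fst V S) z
    rw [constMor_fst] at h2
    rw [h2, he, ← hc]
    exact h1
  have hzero : E.res g z = 0 := by
    refine W'.eq_zero_of_mem_cyG hD (j := j) ⟨c', hres⟩ ?_
    intro i hi c1
    obtain ⟨w, hw⟩ := exists_closure hσ (constModel hσ g hg) (j := i) c1
    obtain ⟨p, hp⟩ := exists_point_class W S
    have h1 : E.res (constMor hσ g) (W.cy (V.prod S) i w) = W'.cy V' i c1 :=
      hE.cy (constModel hσ g hg) i w c1 hw
    have h2 : E.res (constMor hσ g) (W.pull (fst V S) z) = E.res g z := by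
      have h2 := E.res_postcomp (constMor hσ g) (fst V S) z
      rw [constMor_fst] at h2
      exact h2.symm
    have h3 := hE.tr (constModel hσ g hg) (W.pull (fst V S) z * W.cy (V.prod S) i w)
      (W.cy S S.dim p) (W.cycleClasses.cy_mem S S.dim p)
    have h4 : E.res (constMor hσ g) (W.pull (fst V S) z * W.cy (V.prod S) i w) =
        E.res g z * W'.cy V' i c1 := by
      rw [(E.isHom (constMor hσ g)).map_mul, h1, h2]
    have h5 : W.tr (V.prod S) (W.pull (fst V S) z * W.cy (V.prod S) i w *
        W.pull (snd V S) (W.cy S S.dim p)) = 0 := by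
      obtain ⟨y, hy, hy'⟩ := W.push_mem_algClasses (fst V S)
        (W.cy (V.prod S) i w * W.pullA (snd V S) (W.cy S S.dim p))
        (W.mul_mem_algClasses _ _ (W.cy_mem_algClasses _ i w) _
          (W.pull_mem_algClasses (snd V S) _ (W.cy_mem_algClasses _ _ p)))
      have h6 := hy' z
      rw [← W.evK_comm V z y hzev, key y hy] at h6
      rw [mul_assoc]
      change W.trL (V.prod S) (W.pullA (fst V S) z *
        (W.cy (V.prod S) i w * W.pullA (snd V S) (W.cy S S.dim p))) = 0
      rw [W.evK_comm (V.prod S) _ _ (W.pull_evK (fst V S) z hzev)]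
      exact h6.symm
    have h7 : W.tr S (W.cy S S.dim p) * W'.tr V' (E.res g z * W'.cy V' i c1) = 0 := by
      rw [← h4]
      exact h3.symm.trans h5
    exact (mul_eq_zero.mp h7).resolve_left hp
  refine (E.bijective g hg).1 ?_
  rw [hzero]
  exact (map_zero (E.resA g)).symm

end Pool.Agent.Helper11.FP
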