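import Mathlib
import Pool.Agent.Helper11.FP.Basic
import Pool.Agent.Helper11.FP.St.G2
import Pool.Agent.Helper11.FP.St.C3
import Pool.Agent.Helper10.Descent

/-!
# FP-C5: D for the generic fibre and the classes killed by a closed fibre
-/

universe u v w

open CategoryTheory AlgebraicGeometry Limits

namespace Pool.Agent.Helper11.FP

open Pool.Agent.Helper10 Pool.Agent.Helper10.SmProjVar

variable {F k : Type u} [Field F] [Field k] [Algebra F k] {K : Type v} [Field K] [CharZero K]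
  {W : WeilCohomology.{u, v, w} F K} {W' : WeilCohomology.{u, v, w} k K} {S : SmProjVar F}
  {σ : Spec (CommRingCat.of k) ⟶ S.toOver.left} {X : SmProjVar k}

lemma pull_point_comm (m : Model σ X) {s : W.H S} (hs : s ∈ W.gr S (2 * S.dim)) (y : W.H m.Y) :
    y * W.pull m.f s = W.pull m.f s * y := by
  have h1 : W.pull m.f s ∈ W.gr m.Y (2 * S.dim) := (W.pull_hom m.f).map_mem _ _ hs
  refine W.gr_induction m.Y (p := fun y => y * W.pull m.f s = W.pull m.f s * y) ?_ ?_ ?_ y
  · intro i y hy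
    have := (W.graded m.Y).comm i (2 * S.dim) y _ hy h1
    rw [this, show i * (2 * S.dim) = 2 * (i * S.dim) by ring, pow_mul, neg_one_sq, one_pow,
      one_smul]
  · rw [zero_mul, mul_zero]
  · intro a b ha hb
    rw [add_mul, mul_add, ha, hb]

/-- the top cohomology of `S` is spanned by the class of a point -/
lemma exists_smul_point (c : S.Z S.dim) (hc : W.tr S (W.cy S S.dim c) ≠ 0) {s : W.H S}
    (hs : s ∈ W.gr S (2 * S.dim)) : ∃ a : K, s = a • W.cy S S.dim c := by
  refine ⟨W.tr S s / W.tr S (W.cy S S.dim c), ?_⟩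
  obtain ⟨x, -, hx⟩ := (W.trace S).bijective (W.tr S s)
  rw [hx s ⟨hs, rfl⟩]
  symm
  refine hx _ ⟨Submodule.smul_mem _ _ (W.cycleClasses.cy_mem S S.dim c), ?_⟩
  rw [(W.trace S).map_smul, div_mul_cancel₀ _ hc, hx s ⟨hs, rfl⟩]

/-- The intersection numbers on `X` of the restrictions of cycles on `Y`. -/
lemma tr_res_mul (E : Comparison W W') (hE : E.IsCompatible σ) (m : Model σ X) (y y' : W.H m.Y)
    {s : W.H S} (hs : s ∈ W.gr S (2 * S.dim)) :
    W.tr S s * W'.tr X (E.res m.incl y * E.res m.incl y') =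
      W.tr m.Y (y * W.pull m.f s * y') := by
  rw [← (E.isHom m.incl).map_mul, ← hE.tr m (y * y') s hs, mul_assoc, mul_assoc,
    pull_point_comm m hs]

/-- **FP-C5a.** -/
theorem closedFibreDetectsCycles_of_standardDAt (E : Comparison W W') (hσ : IsGenericPoint σ)
    (hE : E.IsCompatible σ) (m : Model σ X) {j : ℕ} (hD : StandardDAt W' X j) :
    ClosedFibreDetectsCycles E m j := by
  intro c hc
  obtain ⟨c', hc'⟩ := exists_restrict hσ m c
  obtain ⟨o, ho⟩ := exists_cycle_zero X j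
  have h1 := hE.cy m j c c' hc'
  rw [h1, ← W'.cy_of_zero o ho]
  refine hD c' o fun i hi w' => ?_
  obtain ⟨w, hw⟩ := exists_closure hσ m (j := i) w'
  obtain ⟨p, hp⟩ := exists_point_class W S
  have h2 := tr_res_mul E hE m (W.cy m.Y j c) (W.cy m.Y i w) (W.cycleClasses.cy_mem S S.dim p)
  rw [hc _ (W.cycleClasses.cy_mem S S.dim p), zero_mul, h1, hE.cy m i w w' hw,
    W'.cycleClasses.tr_cy_mul X j i c' w' hi] at h2
  have h3 : W.tr m.Y 0 = 0 := (W.trL m.Y).map_zero
  rw [h3, mul_eq_zero] at h2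
  have h4 := W'.cycleClasses.tr_cy_mul X j i o w' hi
  have h5 : W'.tr X 0 = 0 := (W'.trL X).map_zero
  rw [W'.cy_of_zero o ho, zero_mul, h5] at h4
  have h6 := h2.resolve_left hp
  rw [h4] at h6
  exact Int.cast_injective h6

/-- **FP-C5b.** -/
theorem standardDAt_of_detects (E : Comparison W W') (hσ : IsGenericPoint σ)
    (hE : E.IsCompatible σ) (m : Model σ X) {j : ℕ} (hdet : ClosedFibreDetectsCycles E m j)
    (hD : StandardDAt W m.Y (j + S.dim)) : StandardDAt W' X j := by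
  intro a b hab
  unfold CohomologyData.HomEquiv
  rw [← sub_eq_zero]
  obtain ⟨c', hc'⟩ : W'.cy X j a - W'.cy X j b ∈ W'.cyG X j :=
    AddSubgroup.sub_mem _ (W'.cy_mem_cyG a) (W'.cy_mem_cyG b)
  obtain ⟨c, hc⟩ := exists_closure hσ m (j := j) c'
  have h1 := hE.cy m j c c' hc
  rw [hc', ← h1]
  refine hdet c fun s hs => ?_
  obtain ⟨p, hp⟩ := exists_point_class W S
  obtain ⟨r, rfl⟩ := exists_smul_point p hp hs
  rw [(W.pull_hom m.f).map_smul, mul_smul_comm]
  obtain ⟨q, hq⟩ := W.cycleClasses.cy_pull m.f S.dim p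
  obtain ⟨e, he⟩ := W.cycleClasses.cy_mul m.Y j S.dim c q
  rw [← hq, ← he]
  obtain ⟨o, ho⟩ := exists_cycle_zero m.Y (j + S.dim)
  have h2 : W.cy m.Y (j + S.dim) e = 0 := by
    rw [← W.cy_of_zero o ho]
    refine hD e o fun i hi w => ?_
    obtain ⟨w', hw'⟩ := exists_restrict hσ m w
    have hdim := dim_model hσ m
    have h3 := tr_res_mul E hE m (W.cy m.Y j c) (W.cy m.Y i w)
      (W.cycleClasses.cy_mem S S.dim p)
    rw [h1, hE.cy m i w w' hw', ← hq, ← he,
      W.cycleClasses.tr_cy_mul m.Y (j + S.dim) i e w hi] at h3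
    have h4 : W'.tr X (W'.cy X j c' * W'.cy X i w') = 0 := by
      rw [← hc', sub_mul]
      have h5 : ∀ x y, W'.tr X (x - y) = W'.tr X x - W'.tr X y := (W'.trL X).map_sub
      rw [h5, W'.cycleClasses.tr_cy_mul X j i a w' (by omega),
        W'.cycleClasses.tr_cy_mul X j i b w' (by omega), hab i (by omega) w', sub_self]
    rw [h4, mul_zero] at h3
    have h6 := W.cycleClasses.tr_cy_mul m.Y (j + S.dim) i o w hi
    have h7 : W.tr m.Y 0 = 0 := (W.trL m.Y).map_zero
    rw [W.cy_of_zero o ho, zero_mul, h7, h3] at h6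
    exact (Int.cast_injective h6).symm ▸ rfl
  rw [h2, smul_zero]

end Pool.Agent.Helper11.FP
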