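import Mathlib
import Pool.Agent.Helper11.FP.Defs
import Pool.Agent.Helper11.PW.St.AC2

/-!
# FP-G4: base changes exist
-/

universe u v w

open CategoryTheory AlgebraicGeometry Limits

namespace Pool.Agent.Helper11.FP

open Pool.Agent.Helper10 Pool.Agent.Helper10.SmProjVar

variable {F k : Type u} [Field F] [Field k] [Algebra F k]

/-- **FP-G4.** -/
theorem exists_baseChange (V : SmProjVar F) : ∃ (V' : SmProjVar k) (g : Mor V' V),
    g.IsBaseChange := by
  obtain ⟨V', p, h⟩ := PW.exists_baseChange k V
  exact ⟨V', ⟨p, h.w⟩, h⟩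

end Pool.Agent.Helper11.FP
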